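import Pool.Agent.Lib.RzG.Flow

/-!
The general theorem on `F/[N,N]` for free groups `F` of arbitrary rank.
-/

set_option autoImplicit false

namespace RzG

open RzT

theorem pr_map {H K : Type} [Group H] [Group K] (φ : H →* K) (t : ℕ → H) (i : ℕ) :
    pr (fun k => φ (t k)) i = φ (pr t i) := by
  induction i with
  | zero => simp [pr]
  | succ i ih => rw [pr, pr, ih, map_mul]

variable {α : Type} (N : Subgroup (FreeGroup α)) [N.Normal]

theorem not_supra_lf (hN : N ≠ ⊥) (S : Finset (FreeGroup α ⧸ N))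
    (hS : Infinite (Subgroup.closure (S : Set (FreeGroup α ⧸ N)))) :
    ∃ A : Set (FreeGroup α ⧸ ⁅N, N⁆), A.Nonempty ∧
      ¬ ∃ μ : Set (FreeGroup α ⧸ ⁅N, N⁆) → ENNReal, μ A = 1 ∧ InvMeas μ := by
  classical
  obtain ⟨i0, c, D, hDfin, hinj⟩ := exists_D N hN
  let H0 : Subgroup (FreeGroup α ⧸ N) := Subgroup.closure (S : Set (FreeGroup α ⧸ N))
  have hD0 : ((fun x : H0 => (x : FreeGroup α ⧸ N)) ⁻¹' D).Finite :=
    hDfin.preimage Subtype.val_injective.injOn
  obtain ⟨T, t, hT, hD⟩ := exists_ray (H := H0)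
    (S.preimage Subtype.val Subtype.val_injective.injOn)
    (by
      rw [Finset.coe_preimage]
      exact Subgroup.closure_closure_coe_preimage)
    hD0.toFinset
  let σ : FreeGroup α ⧸ N → FreeGroup α ⧸ ⁅N, N⁆ := fun y => QuotientGroup.mk y.out
  have hσ : ∀ y, (Psi N i0 (σ y)).h = y := by
    intro y
    rw [Psi_mk, Phi_h]
    exact QuotientGroup.out_eq' y
  have hpr : (fun k => (Psi N i0 (σ (t k : FreeGroup α ⧸ N))).h) = fun k => H0.subtype (t k) := by
    funext k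
    exact hσ _
  refine not_supra (T.image fun x : H0 => σ (x : FreeGroup α ⧸ N))
    (fun k => σ (t k : FreeGroup α ⧸ N))
    (fun k => Finset.mem_image_of_mem (fun x : H0 => σ (x : FreeGroup α ⧸ N)) (hT k)) c ?_
  apply hinj
  intro i j hij
  rw [hpr, pr_map, pr_map, ← map_inv, ← map_mul]
  have := hD i j hij
  rwa [Set.Finite.mem_toFinset] at this

theorem free_of_not_periodic (hN : N ≠ ⊥) (w : FreeGroup α)
    (hw : ∀ k : ℕ, 0 < k → w ^ k ∉ N) :
    ∃ f : Fin 2 → FreeGroup α ⧸ ⁅N, N⁆, Function.Injective ⇑(FreeSemigroup.lift f) := by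
  obtain ⟨i0, c, D, hDfin, hinj⟩ := exists_D N hN
  let h : FreeGroup α ⧸ N := QuotientGroup.mk w
  have hord : ¬ IsOfFinOrder h := by
    rw [isOfFinOrder_iff_pow_eq_one]
    rintro ⟨k, hk, hk1⟩
    apply hw k hk
    rw [← QuotientGroup.eq_one_iff, QuotientGroup.mk_pow]
    exact hk1
  have hpinj : Function.Injective fun k : ℕ => h ^ k := injective_pow_iff_not_isOfFinOrder.mpr hord
  have hfin : {k : ℕ | h ^ k ∈ D}.Finite := hDfin.preimage (hpinj.injOn)
  obtain ⟨L0, hL0⟩ := hfin.bddAbove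
  have hL : ∀ m : ℕ, 0 < m → h ^ ((L0 + 1) * m) ∉ D := by
    intro m hm hmem
    have h1 : (L0 + 1) * m ≤ L0 := hL0 hmem
    have h2 : L0 + 1 ≤ (L0 + 1) * m := Nat.le_mul_of_pos_right _ hm
    omega
  apply free_of_inj (QuotientGroup.mk (w ^ (L0 + 1))) c
  apply hinj
  intro i j hij
  have hh : (Psi N i0 (QuotientGroup.mk (w ^ (L0 + 1)))).h = h ^ (L0 + 1) := by
    rw [Psi_mk, Phi_h, QuotientGroup.mk_pow]
  rw [hh, pr_const, pr_const]
  have h3 : ((h ^ (L0 + 1)) ^ i)⁻¹ * (h ^ (L0 + 1)) ^ j = h ^ ((L0 + 1) * (j - i)) := by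
    obtain ⟨m, rfl⟩ := Nat.exists_eq_add_of_lt hij
    have : i + m + 1 - i = m + 1 := by omega
    rw [this, pow_mul, show i + m + 1 = i + (m + 1) by omega,
      pow_add (h ^ (L0 + 1)) i (m + 1), inv_mul_cancel_left]
  rw [h3]
  exact hL (j - i) (by omega)

theorem full (hN : N ≠ ⊥) :
    (∀ (g : FreeGroup α ⧸ ⁅N, N⁆) (k : ℕ), 0 < k → g ^ k = 1 → g = 1) ∧
    ((∃ f : Fin 2 → FreeGroup α ⧸ ⁅N, N⁆, Function.Injective ⇑(FreeSemigroup.lift f)) ↔
      ∃ w : FreeGroup α, ∀ k : ℕ, 0 < k → w ^ k ∉ N) ∧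
    ((∃ S : Finset (FreeGroup α ⧸ N),
      Infinite (Subgroup.closure (S : Set (FreeGroup α ⧸ N)))) →
      ∃ A : Set (FreeGroup α ⧸ ⁅N, N⁆), A.Nonempty ∧
        ¬ ∃ μ : Set (FreeGroup α ⧸ ⁅N, N⁆) → ENNReal, μ A = 1 ∧ InvMeas μ) ∧
    (Folner (FreeGroup α ⧸ N) →
      ∃ m : Set (FreeGroup α ⧸ ⁅N, N⁆) → ENNReal, m Set.univ = 1 ∧ InvMeas m) := by
  refine ⟨?_, ⟨?_, ?_⟩, fun ⟨S, hS⟩ => not_supra_lf N hN S hS, ?_⟩
  · intro g k hk hg
    obtain ⟨w, rfl⟩ := QuotientGroup.mk_surjective g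
    rw [← QuotientGroup.mk_pow, QuotientGroup.eq_one_iff] at hg
    exact (QuotientGroup.eq_one_iff _).mpr (torsionfree N w k hk hg)
  · rintro ⟨f, hf⟩
    by_contra hcon
    push Not at hcon
    obtain ⟨a, ha⟩ := QuotientGroup.mk_surjective (f 0)
    obtain ⟨b, hb⟩ := QuotientGroup.mk_surjective (f 1)
    obtain ⟨p, hp, hap⟩ := hcon a
    obtain ⟨q, hq, hbq⟩ := hcon b
    refine no_free f p q hp hq ?_ hf
    rw [← ha, ← hb, ← QuotientGroup.mk_pow, ← QuotientGroup.mk_pow]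
    exact mk_comm N hap hbq
  · rintro ⟨w, hw⟩
    exact free_of_not_periodic N hN w hw
  · intro hF
    have h1 : Folner (FreeGroup α ⧸ ⁅N, N⁆) := by
      have hle : ⁅N, N⁆ ≤ N := Subgroup.commutator_le_self N
      let π : FreeGroup α ⧸ ⁅N, N⁆ →* FreeGroup α ⧸ N :=
        QuotientGroup.lift ⁅N, N⁆ (QuotientGroup.mk' N)
          (fun w hw => (QuotientGroup.eq_one_iff w).mpr (hle hw))
      apply ext_folner π
      · intro y
        obtain ⟨w, rfl⟩ := QuotientGroup.mk_surjective y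
        exact ⟨QuotientGroup.mk w, rfl⟩
      · intro a ha b hb
        obtain ⟨a, rfl⟩ := QuotientGroup.mk_surjective a
        obtain ⟨b, rfl⟩ := QuotientGroup.mk_surjective b
        have ha' : (QuotientGroup.mk a : FreeGroup α ⧸ N) = 1 := ha
        have hb' : (QuotientGroup.mk b : FreeGroup α ⧸ N) = 1 := hb
        rw [QuotientGroup.eq_one_iff] at ha' hb'
        exact mk_comm N ha' hb'
      · exact hF
    exact exists_meas h1

end RzG
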