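import Pool.Agent.Lib.RzT.Full

/-!
Flows of elements of a free group of arbitrary rank.
-/

set_option autoImplicit false

namespace RzG

open RzT

variable {α : Type} (N : Subgroup (FreeGroup α)) [N.Normal]

theorem mk_comm {a b : FreeGroup α} (ha : a ∈ N) (hb : b ∈ N) :
    (QuotientGroup.mk a : FreeGroup α ⧸ ⁅N, N⁆) * QuotientGroup.mk b =
      QuotientGroup.mk b * QuotientGroup.mk a := by
  rw [← QuotientGroup.mk_mul, ← QuotientGroup.mk_mul, QuotientGroup.eq]
  have h := Subgroup.commutator_mem_commutator (inv_mem hb) (inv_mem ha)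
  rw [commutatorElement_def, inv_inv, inv_inv] at h
  rw [mul_inv_rev, ← mul_assoc]
  exact h

open Classical in
/-- the flow through the edges with label `i0` -/
noncomputable def Phi (i0 : α) : FreeGroup α →* W (FreeGroup α ⧸ N) :=
  FreeGroup.lift fun i => ⟨if i = i0 then Pi.single 1 1 else 0, QuotientGroup.mk (FreeGroup.of i)⟩

theorem Phi_h (i0 : α) (w : FreeGroup α) : (Phi N i0 w).h = QuotientGroup.mk w := by
  have h : (W.top).comp (Phi N i0) = QuotientGroup.mk' N := by
    apply FreeGroup.ext_hom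
    intro i
    simp [Phi, W.top_apply]
  exact DFunLike.congr_fun h w

theorem Phi_comm (i0 : α) : ∀ w ∈ ⁅N, N⁆, Phi N i0 w = 1 := by
  have h : ⁅N, N⁆ ≤ (Phi N i0).ker := by
    rw [Subgroup.commutator_le]
    intro a ha b hb
    rw [MonoidHom.mem_ker, map_commutatorElement, commutatorElement_eq_one_iff_mul_comm]
    apply W.comm_of_h
    · rw [Phi_h]; exact (QuotientGroup.eq_one_iff a).mpr ha
    · rw [Phi_h]; exact (QuotientGroup.eq_one_iff b).mpr hb
  exact fun w hw => h hw

/-- the induced map -/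
noncomputable def Psi (i0 : α) : FreeGroup α ⧸ ⁅N, N⁆ →* W (FreeGroup α ⧸ N) :=
  QuotientGroup.lift ⁅N, N⁆ (Phi N i0) (Phi_comm N i0)

theorem Psi_mk (i0 : α) (w : FreeGroup α) :
    Psi N i0 (QuotientGroup.mk w) = Phi N i0 w := rfl

theorem flow_finite (i0 : α) (w : FreeGroup α) :
    {y | (Phi N i0 w).f y ≠ 0}.Finite := by
  classical
  induction w using FreeGroup.induction_on with
  | C1 => simp [W.one_f]
  | of i =>
    apply (Set.finite_singleton (1 : FreeGroup α ⧸ N)).subset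
    intro y hy
    by_contra hne
    apply hy
    have hne' : y ≠ 1 := hne
    by_cases h : i = i0 <;> simp [Phi, h, hne']
  | inv_of i ih =>
    apply (ih.image fun y => (Phi N i0 (FreeGroup.of i)).h⁻¹ * y).subset
    intro y hy
    refine ⟨(Phi N i0 (FreeGroup.of i)).h * y, ?_, by simp⟩
    intro h0
    apply hy
    rw [map_inv, W.inv_f, h0, neg_zero]
  | mul x y hx hy =>
    apply (hx.union (hy.image fun z => (Phi N i0 x).h * z)).subset
    intro z hz
    by_cases h : (Phi N i0 x).f z = 0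
    · right
      refine ⟨(Phi N i0 x).h⁻¹ * z, ?_, by simp⟩
      intro h0
      apply hz
      rw [map_mul, W.mul_f, h, h0, add_zero]
    · left
      exact h

open Classical in
theorem Phi_true (i0 i : α) (y : FreeGroup α ⧸ N) :
    (Phi N i0 (FreeGroup.mk [(i, true)])).f y = if i = i0 ∧ y = 1 then 1 else 0 := by
  have h : FreeGroup.mk [(i, true)] = FreeGroup.of i := rfl
  rw [h]
  by_cases h1 : i = i0
  · by_cases h2 : y = 1
    · subst h2; simp [Phi, h1]
    · simp [Phi, h1, h2]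
  · simp [Phi, h1]

open Classical in
theorem Phi_false (i0 i : α) (y : FreeGroup α ⧸ N) :
    (Phi N i0 (FreeGroup.mk [(i, false)])).f y =
      if i = i0 ∧ y = (QuotientGroup.mk (FreeGroup.of i0))⁻¹ then -1 else 0 := by
  have h : FreeGroup.mk [(i, false)] = (FreeGroup.of i)⁻¹ := rfl
  have h3 := Phi_true N i0 i ((QuotientGroup.mk (FreeGroup.of i)) * y)
  have h4 : FreeGroup.mk [(i, true)] = FreeGroup.of i := rfl
  rw [h4] at h3
  rw [h, map_inv, W.inv_f, Phi_h, h3]
  by_cases h1 : i = i0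
  · subst h1
    by_cases h2 : y = (QuotientGroup.mk (FreeGroup.of i))⁻¹
    · have h5 : (QuotientGroup.mk (FreeGroup.of i) : FreeGroup α ⧸ N) * y = 1 := by
        rw [h2, mul_inv_cancel]
      simp [h2]
    · have h5 : ¬ (QuotientGroup.mk (FreeGroup.of i) : FreeGroup α ⧸ N) * y = 1 := by
        intro h6
        exact h2 (eq_inv_of_mul_eq_one_right h6)
      simp [h5, h2]
  · simp [h1]

theorem Phi_cons (i0 : α) (a : α × Bool) (L : List (α × Bool))
    (y : FreeGroup α ⧸ N) : (Phi N i0 (FreeGroup.mk (a :: L))).f y =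
      (Phi N i0 (FreeGroup.mk [a])).f y +
        (Phi N i0 (FreeGroup.mk L)).f ((QuotientGroup.mk (FreeGroup.mk [a]))⁻¹ * y) := by
  have h : FreeGroup.mk (a :: L) = FreeGroup.mk [a] * FreeGroup.mk L := by
    rw [FreeGroup.mul_mk]; rfl
  rw [h, map_mul, W.mul_f, Phi_h]

theorem sign_split (i0 : α) (L : List (α × Bool)) : ∀ y : FreeGroup α ⧸ N,
    ((Phi N i0 (FreeGroup.mk L)).f y < 0 → ∃ L1 L2, L = L1 ++ (i0, false) :: L2 ∧
      (QuotientGroup.mk (FreeGroup.mk L1) : FreeGroup α ⧸ N) *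
        (QuotientGroup.mk (FreeGroup.of i0))⁻¹ = y) ∧
    (0 < (Phi N i0 (FreeGroup.mk L)).f y → ∃ L1 L2, L = L1 ++ (i0, true) :: L2 ∧
      (QuotientGroup.mk (FreeGroup.mk L1) : FreeGroup α ⧸ N) = y) := by
  induction L with
  | nil =>
    intro y
    have h : (Phi N i0 (FreeGroup.mk [])).f y = 0 := by
      have : FreeGroup.mk ([] : List (α × Bool)) = 1 := rfl
      rw [this, map_one, W.one_f]
    rw [h]
    exact ⟨fun h => absurd h (lt_irrefl _), fun h => absurd h (lt_irrefl _)⟩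
  | cons a L ih =>
    intro y
    have hmk : ∀ L1 : List (α × Bool),
        (QuotientGroup.mk (FreeGroup.mk (a :: L1)) : FreeGroup α ⧸ N) =
          QuotientGroup.mk (FreeGroup.mk [a]) * QuotientGroup.mk (FreeGroup.mk L1) := by
      intro L1
      rw [← QuotientGroup.mk_mul, FreeGroup.mul_mk]
      rfl
    obtain ⟨ih1, ih2⟩ := ih ((QuotientGroup.mk (FreeGroup.mk [a]))⁻¹ * y)
    rw [Phi_cons]
    constructor
    · intro h
      by_cases h1 : (Phi N i0 (FreeGroup.mk L)).f
          ((QuotientGroup.mk (FreeGroup.mk [a]))⁻¹ * y) < 0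
      · obtain ⟨L1, L2, hL, hy⟩ := ih1 h1
        refine ⟨a :: L1, L2, by rw [hL]; rfl, ?_⟩
        rw [hmk, mul_assoc, hy, mul_inv_cancel_left]
      · have h2 : (Phi N i0 (FreeGroup.mk [a])).f y < 0 := by omega
        obtain ⟨i, b⟩ := a
        cases b
        · rw [Phi_false] at h2
          by_cases h3 : i = i0 ∧ y = (QuotientGroup.mk (FreeGroup.of i0))⁻¹
          · refine ⟨[], L, by rw [h3.1]; rfl, ?_⟩
            have : FreeGroup.mk ([] : List (α × Bool)) = 1 := rfl
            rw [this, QuotientGroup.mk_one, one_mul, h3.2]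
          · rw [if_neg h3] at h2
            exact absurd h2 (lt_irrefl _)
        · rw [Phi_true] at h2
          split_ifs at h2 <;> omega
    · intro h
      by_cases h1 : 0 < (Phi N i0 (FreeGroup.mk L)).f
          ((QuotientGroup.mk (FreeGroup.mk [a]))⁻¹ * y)
      · obtain ⟨L1, L2, hL, hy⟩ := ih2 h1
        refine ⟨a :: L1, L2, by rw [hL]; rfl, ?_⟩
        rw [hmk, hy, mul_inv_cancel_left]
      · have h2 : 0 < (Phi N i0 (FreeGroup.mk [a])).f y := by omega
        obtain ⟨i, b⟩ := a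
        cases b
        · rw [Phi_false] at h2
          split_ifs at h2 <;> omega
        · rw [Phi_true] at h2
          by_cases h3 : i = i0 ∧ y = 1
          · refine ⟨[], L, by rw [h3.1]; rfl, ?_⟩
            have : FreeGroup.mk ([] : List (α × Bool)) = 1 := rfl
            rw [this, QuotientGroup.mk_one, h3.2]
          · rw [if_neg h3] at h2
            exact absurd h2 (lt_irrefl _)

theorem exists_flow (hN : N ≠ ⊥) : ∃ (i0 : α) (r : FreeGroup α)
    (y0 : FreeGroup α ⧸ N), r ∈ N ∧ (Phi N i0 r).f y0 ≠ 0 := by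
  classical
  by_contra hcon
  push Not at hcon
  obtain ⟨⟨w0, hw0⟩, hne⟩ := Subgroup.ne_bot_iff_exists_ne_one.mp hN
  have hw01 : w0 ≠ 1 := fun h => hne (Subtype.ext h)
  have hex : ∃ k : ℕ, ∃ w : FreeGroup α, w ∈ N ∧ w ≠ 1 ∧ w.toWord.length = k :=
    ⟨_, w0, hw0, hw01, rfl⟩
  obtain ⟨w, hw, hw1, hlen⟩ := Nat.find_spec hex
  have hmin : ∀ v : FreeGroup α, v ∈ N → v.toWord.length < w.toWord.length → v = 1 := by
    intro v hv hvl
    by_contra hv1
    rw [hlen] at hvl
    exact Nat.find_min hex hvl ⟨v, hv, hv1, rfl⟩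
  have hred : FreeGroup.IsReduced w.toWord := FreeGroup.isReduced_toWord
  have hmk : FreeGroup.mk w.toWord = w := FreeGroup.mk_toWord
  have hnil : w.toWord ≠ [] := fun h => hw1 (FreeGroup.toWord_eq_nil_iff.mp h)
  obtain ⟨a, L', hL⟩ := List.exists_cons_of_ne_nil hnil
  -- a closed proper initial part of the rest is empty
  have hpre : ∀ (L1 : List (α × Bool)) (x : α × Bool) (L2 : List (α × Bool)),
      L' = L1 ++ x :: L2 → (QuotientGroup.mk (FreeGroup.mk L1) : FreeGroup α ⧸ N) = 1 →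
      L1 = [] := by
    intro L1 x L2 hLL h1
    have hred1 : FreeGroup.IsReduced L1 := by
      have h3 : FreeGroup.IsReduced (a :: (L1 ++ x :: L2)) := by
        rw [← hLL, ← hL]
        exact hred
      have h4 : FreeGroup.IsReduced (L1 ++ x :: L2) := List.IsChain.tail h3
      exact List.IsChain.left_of_append h4
    have htw : (FreeGroup.mk L1).toWord = L1 := by
      rw [FreeGroup.toWord_mk]; exact hred1.reduce_eq
    have h2 := hmin (FreeGroup.mk L1) ((QuotientGroup.eq_one_iff _).mp h1) (by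
      rw [htw, hL, hLL]
      simp)
    rw [h2] at htw
    rw [← htw]
    exact FreeGroup.toWord_one
  obtain ⟨i, b⟩ := a
  have hw' : FreeGroup.mk ((i, b) :: L') = w := by rw [← hL]; exact hmk
  cases b
  · -- first letter inverse
    have h1 := hcon i w (QuotientGroup.mk (FreeGroup.of i))⁻¹ hw
    rw [← hw', Phi_cons, Phi_false, if_pos ⟨rfl, rfl⟩] at h1
    have h2 : (QuotientGroup.mk (FreeGroup.mk [(i, false)]) : FreeGroup α ⧸ N)⁻¹ *
        (QuotientGroup.mk (FreeGroup.of i))⁻¹ = 1 := by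
      have : FreeGroup.mk [(i, false)] = (FreeGroup.of i)⁻¹ := rfl
      rw [this, QuotientGroup.mk_inv, inv_inv, mul_inv_cancel]
    rw [h2] at h1
    obtain ⟨L1, L2, hLL, hy⟩ := (sign_split N i L' 1).2 (by omega)
    have h3 := hpre L1 _ L2 hLL hy
    rw [h3, List.nil_append] at hLL
    rw [hL, hLL, FreeGroup.isReduced_cons_cons] at hred
    exact absurd (hred.1 rfl) (by simp)
  · have h1 := hcon i w 1 hw
    rw [← hw', Phi_cons, Phi_true, if_pos ⟨rfl, rfl⟩, mul_one] at h1
    have h2 : (QuotientGroup.mk (FreeGroup.mk [(i, true)]) : FreeGroup α ⧸ N) =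
        QuotientGroup.mk (FreeGroup.of i) := rfl
    rw [h2] at h1
    obtain ⟨L1, L2, hLL, hy⟩ := (sign_split N i L' _).1 (by omega : (Phi N i (FreeGroup.mk L')).f
      (QuotientGroup.mk (FreeGroup.of i))⁻¹ < 0)
    have h3 := hpre L1 _ L2 hLL (by simpa using hy)
    rw [h3, List.nil_append] at hLL
    rw [hL, hLL, FreeGroup.isReduced_cons_cons] at hred
    exact absurd (hred.1 rfl) (by simp)

theorem exists_D (hN : N ≠ ⊥) : ∃ (i0 : α) (c : FreeGroup α ⧸ ⁅N, N⁆)
    (D : Set (FreeGroup α ⧸ N)), D.Finite ∧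
    ∀ t : ℕ → FreeGroup α ⧸ ⁅N, N⁆,
      (∀ i j : ℕ, i < j → (pr (fun k => (Psi N i0 (t k)).h) i)⁻¹ *
        pr (fun k => (Psi N i0 (t k)).h) j ∉ D) → Function.Injective (node t c) := by
  obtain ⟨i0, r, y0, hr, hy0⟩ := exists_flow N hN
  have hS := flow_finite N i0 r
  refine ⟨i0, QuotientGroup.mk r,
    ((fun y => y * y0⁻¹) '' {y | (Phi N i0 r).f y ≠ 0}) ∪
      ((fun y => (y * y0⁻¹)⁻¹) '' {y | (Phi N i0 r).f y ≠ 0}),
    (hS.image _).union (hS.image _), ?_⟩
  intro t ht
  apply node_inj' (Psi N i0) t (QuotientGroup.mk r) y0 _ _ _ _ ht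
  · rw [Psi_mk, Phi_h]
    exact (QuotientGroup.eq_one_iff _).mpr hr
  · rw [Psi_mk]; exact hy0
  · intro y hy
    rw [Psi_mk] at hy
    exact ⟨Or.inl ⟨y, hy, rfl⟩, Or.inr ⟨y, hy, rfl⟩⟩

end RzG
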